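import Pool.Agent.helper90.IV.Spec

/-!
# MP_26dbae_co, row GL2 of the interval theorem: classes
-/

set_option autoImplicit false

open scoped BigOperators

namespace Pool.Agent.helper71.IV

open Pool.Agent.IV
open Pool.Agent.helper23.TH Pool.Agent.KS

noncomputable section

open Classical

/-- a random map is right on five given different points with probability `5^(-5)` -/
theorem GL2_cnt {X : Type} [Fintype X] (f : Fin 5 → X) (hf : Function.Injective f) :
    Fintype.card (X → Fin 5) ≤
      5 ^ 5 * (Finset.univ.filter fun α : X → Fin 5 => ∀ i, α (f i) = i).card := by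
  have h : Fintype.card (X → Fin 5) ≤ ((Finset.univ : Finset (Fin 5 → Fin 5)) ×ˢ
      (Finset.univ.filter fun α : X → Fin 5 => ∀ i, α (f i) = i)).card := by
    rw [← Finset.card_univ]
    refine Finset.card_le_card_of_injOn (fun α => (fun i => α (f i), fun x =>
      if h : ∃ i, f i = x then h.choose else α x)) ?_ ?_
    · intro α _
      rw [Finset.mem_coe, Finset.mem_product]
      refine ⟨Finset.mem_univ _, ?_⟩
      rw [Finset.mem_filter]
      refine ⟨Finset.mem_univ _, ?_⟩
      intro i
      have hi : ∃ j, f j = f i := ⟨i, rfl⟩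
      show (if h : ∃ j, f j = f i then h.choose else α (f i)) = i
      rw [dif_pos hi]
      exact hf hi.choose_spec
    · intro α _ β _ hab
      have h1 : ∀ i, α (f i) = β (f i) := fun i => congrFun (congrArg Prod.fst hab) i
      have h2 : ∀ x, (if h : ∃ i, f i = x then h.choose else α x) =
          (if h : ∃ i, f i = x then h.choose else β x) := fun x => congrFun (congrArg Prod.snd hab) x
      funext x
      by_cases hx : ∃ i, f i = x
      · obtain ⟨i, rfl⟩ := hx
        exact h1 i
      · have h3 := h2 x
        rw [dif_neg hx, dif_neg hx] at h3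
        exact h3
  have h5 : (Finset.univ : Finset (Fin 5 → Fin 5)).card = 5 ^ 5 := by
    rw [Finset.card_univ, Fintype.card_fun, Fintype.card_fin]
  rw [Finset.card_product, h5] at h
  exact h

theorem GL2 : GL2_stmt := by
  intro V X _ _ p q S hS
  by_contra hcon
  push Not at hcon
  have hp : ∀ v ∈ S, Function.Injective fun i => p (v i) := by
    intro v hv i j hij
    by_contra hne
    exact hS v hv i j hne (Or.inl hij)
  have hq : ∀ v ∈ S, Function.Injective fun i => q (v i) := by
    intro v hv i j hij
    by_contra hne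
    exact hS v hv i j hne (Or.inr hij)
  have hN : 0 < Fintype.card (X → Fin 5) := Fintype.card_pos
  -- double counting
  have hdc : ∑ a : (X → Fin 5) × (X → Fin 5),
      (S.filter fun v => ∀ i, a.1 (p (v i)) = i ∧ a.2 (q (v i)) = i).card =
      ∑ v ∈ S, ((Finset.univ.filter fun α : X → Fin 5 => ∀ i, α (p (v i)) = i).card *
        (Finset.univ.filter fun β : X → Fin 5 => ∀ i, β (q (v i)) = i).card) := by
    have e1 : ∀ a : (X → Fin 5) × (X → Fin 5),
        (S.filter fun v => ∀ i, a.1 (p (v i)) = i ∧ a.2 (q (v i)) = i).card =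
        ∑ v ∈ S, if (∀ i, a.1 (p (v i)) = i ∧ a.2 (q (v i)) = i) then 1 else 0 := by
      intro a
      rw [Finset.card_filter]
    rw [Finset.sum_congr rfl fun a _ => e1 a, Finset.sum_comm]
    refine Finset.sum_congr rfl fun v _ => ?_
    rw [← Finset.card_product, ← Finset.card_filter]
    congr 1
    ext a
    simp only [Finset.mem_filter, Finset.mem_univ, true_and, Finset.mem_product]
    exact forall_and
  have hlow : S.card * (Fintype.card (X → Fin 5) * Fintype.card (X → Fin 5)) ≤
      5 ^ 10 * ∑ v ∈ S, ((Finset.univ.filter fun α : X → Fin 5 => ∀ i, α (p (v i)) = i).card *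
        (Finset.univ.filter fun β : X → Fin 5 => ∀ i, β (q (v i)) = i).card) := by
    rw [Finset.mul_sum, ← smul_eq_mul, ← Finset.sum_const]
    refine Finset.sum_le_sum fun v hv => ?_
    have h1 := GL2_cnt _ (hp v hv)
    have h2 := GL2_cnt _ (hq v hv)
    calc Fintype.card (X → Fin 5) * Fintype.card (X → Fin 5) ≤ _ := Nat.mul_le_mul h1 h2
      _ = _ := by ring
  have hup : 5 ^ 10 * ∑ a : (X → Fin 5) × (X → Fin 5),
      (S.filter fun v => ∀ i, a.1 (p (v i)) = i ∧ a.2 (q (v i)) = i).card <
      S.card * (Fintype.card (X → Fin 5) * Fintype.card (X → Fin 5)) := by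
    rw [Finset.mul_sum]
    have h3 : ∑ _a : (X → Fin 5) × (X → Fin 5), S.card =
        S.card * (Fintype.card (X → Fin 5) * Fintype.card (X → Fin 5)) := by
      rw [Finset.sum_const, smul_eq_mul, Finset.card_univ, Fintype.card_prod, mul_comm]
    rw [← h3]
    refine Finset.sum_lt_sum_of_nonempty ?_ fun a _ => hcon a.1 a.2
    exact Finset.univ_nonempty
  rw [hdc] at hup
  exact absurd hlow (not_le.2 hup)

end

end Pool.Agent.helper71.IV
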